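import Mathlib
import Pool.Agent.H779R2.Hardy.Final

set_option autoImplicit false

open MeasureTheory Filter Topology Set
open scoped ContDiff

namespace Pool.Agent.Results.MP_5b99fd_an.BestConstant

/-- The numerator `∫ (1+|x|²)^α |∇u|² dx`. -/
noncomputable def energy (n : ℕ) (α : ℝ) (u : EuclideanSpace ℝ (Fin n) → ℝ) : ℝ :=
  ∫ x, (1 + ‖x‖ ^ 2) ^ α * ‖gradient u x‖ ^ 2

/-- The denominator `∫ (1+|x|²)^(α-1) u² dx`. -/
noncomputable def mass (n : ℕ) (α : ℝ) (u : EuclideanSpace ℝ (Fin n) → ℝ) : ℝ :=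
  ∫ x, (1 + ‖x‖ ^ 2) ^ (α - 1) * u x ^ 2

/-- The set `𝒜_α`: nonzero smooth compactly supported functions, which for `α < -(n-2)/2` are also
required to satisfy `∫ (1+|x|²)^(α-1) u dx = 0`. -/
def Admissible (n : ℕ) (α : ℝ) (u : EuclideanSpace ℝ (Fin n) → ℝ) : Prop :=
  ContDiff ℝ ∞ u ∧ HasCompactSupport u ∧ u ≠ 0 ∧
    (α < -((n : ℝ) - 2) / 2 → ∫ x, (1 + ‖x‖ ^ 2) ^ (α - 1) * u x = 0)

/-- The set of all quotients. -/
def quotients (n : ℕ) (α : ℝ) : Set ℝ :=
  {q | ∃ u, Admissible n α u ∧ q = energy n α u / mass n α u}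

/-- The best constant `C(α,n)`. -/
noncomputable def bestConstant (n : ℕ) (α : ℝ) : ℝ := sInf (quotients n α)

/-- The explicit value. -/
noncomputable def value (n : ℕ) (α : ℝ) : ℝ :=
  if α ≤ -n then -2 * α
  else if α ≤ -((n : ℝ) + 2) / 2 then -4 * α - 2 * n
  else if α ≤ 1 + (n : ℝ) / 2 then ((n : ℝ) + 2 * α - 2) ^ 2 / 4
  else 2 * n * (α - 1)

open Pool.Agent.H779R2.Hardy

variable {n : ℕ}

lemma energy_eq (α : ℝ) (u : EuclideanSpace ℝ (Fin n) → ℝ) : energy n α u = En α u := by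
  unfold energy En w
  congr 1; ext x
  unfold gradient
  rw [LinearIsometryEquiv.norm_map]

lemma mass_eq (α : ℝ) (u : EuclideanSpace ℝ (Fin n) → ℝ) : mass n α u = Ms α u := rfl

/-- the lower bound -/
lemma lower (hn : 3 ≤ n) (α : ℝ) (hα : α ≠ -((n : ℝ) - 2) / 2) (u : EuclideanSpace ℝ (Fin n) → ℝ)
    (hu : ContDiff ℝ ∞ u) (hs : HasCompactSupport u)
    (h0 : α < -((n : ℝ) - 2) / 2 → ∫ x, w x ^ (α - 1) * u x = 0) :
    value n α * Ms α u ≤ En α u := by
  have hn' : (3 : ℝ) ≤ n := by exact_mod_cast hn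
  have hnpos : 0 < n := by omega
  have hu1 : ContDiff ℝ 1 u := hu.of_le (by simp)
  unfold value
  split_ifs with h1 h2 h3
  · -- α ≤ -n
    have hα' : α < -((n : ℝ) - 2) / 2 := by linarith
    have hden : 0 < -4 * α - 2 * n := by linarith
    refine lower_neg (κ := 1) (w0 := -4 * α / (-4 * α - 2 * n)) hnpos hα' ?_ ?_ ?_ le_rfl hu hs (h0 hα')
    · rw [lt_div_iff₀ hden]; linarith
    · intro t _
      set w0 := -4 * α / (-4 * α - 2 * n) with hw0
      have e : w0 * (-4 * α - 2 * n) = -4 * α := by rw [hw0, div_mul_cancel₀ _ hden.ne']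
      have e2 : -2 * 1 * ((n : ℝ) * t + 2 * α * (t - 1)) * (t - w0) + 4 * 1 * (1 - 1) * t * (t - 1) -
          -2 * α * (t - w0) ^ 2 = (t - w0) * (w0 * (-4 * α - 2 * n) + 4 * α) +
            (-2 * α - 2 * n) * (t - w0) ^ 2 := by ring
      have e3 : w0 * (-4 * α - 2 * n) + 4 * α = 0 := by linarith
      rw [e3, mul_zero] at e2
      have : 0 ≤ (-2 * α - 2 * n) * (t - w0) ^ 2 := by
        apply mul_nonneg (by linarith) (sq_nonneg _)
      linarith
    · linarith
  · -- -n < α ≤ -(n+2)/2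
    push Not at h1
    have hα' : α < -((n : ℝ) - 2) / 2 := by linarith
    have hden : 0 < -4 * α - 2 * n := by linarith
    refine lower_neg (κ := 1) (w0 := -4 * α / (-4 * α - 2 * n)) hnpos hα' ?_ ?_ hden.le (by linarith) hu hs (h0 hα')
    · rw [lt_div_iff₀ hden]; linarith
    · intro t _
      set w0 := -4 * α / (-4 * α - 2 * n) with hw0
      have e : w0 * (-4 * α - 2 * n) = -4 * α := by rw [hw0, div_mul_cancel₀ _ hden.ne']
      have e2 : -2 * 1 * ((n : ℝ) * t + 2 * α * (t - 1)) * (t - w0) + 4 * 1 * (1 - 1) * t * (t - 1) -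
          (-4 * α - 2 * n) * (t - w0) ^ 2 = (t - w0) * (w0 * (-4 * α - 2 * n) + 4 * α) := by ring
      have e3 : w0 * (-4 * α - 2 * n) + 4 * α = 0 := by linarith
      rw [e3, mul_zero] at e2
      linarith
  · -- middle range
    push Not at h1 h2
    rcases lt_or_gt_of_ne hα with hα' | hα'
    · -- α < α^*
      set κ : ℝ := (2 - n - 2 * α) / 4 with hκ
      have hκ1 : κ < 1 := by rw [hκ]; linarith
      have hκ0 : 0 < κ := by rw [hκ]; linarith
      have hκα : κ < -α := by rw [hκ]; linarith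
      have hlam : ((n : ℝ) + 2 * α - 2) ^ 2 / 4 = 4 * κ ^ 2 := by rw [hκ]; ring
      rw [hlam]
      have hnk : (n : ℝ) = 2 - 2 * α - 4 * κ := by rw [hκ]; ring
      refine lower_neg (κ := κ) (w0 := 1 - α - κ) hnpos hα' ?_ ?_ (by positivity) ?_ hu hs (h0 hα')
      · linarith
      · intro t _
        have e : -2 * κ * ((n : ℝ) * t + 2 * α * (t - 1)) * (t - (1 - α - κ)) + 4 * κ * (1 - κ) * t * (t - 1) -
            4 * κ ^ 2 * (t - (1 - α - κ)) ^ 2 = 4 * κ * ((1 - α - κ) * ((1 - κ) * (-α - κ))) := by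
          rw [hnk]; ring
        have : 0 ≤ 4 * κ * ((1 - α - κ) * ((1 - κ) * (-α - κ))) := by
          apply mul_nonneg (by linarith)
          apply mul_nonneg (by linarith)
          apply mul_nonneg <;> linarith
        linarith
      · -- 4 κ² ≤ -2 α
        have : 4 * κ ^ 2 ≤ 4 * κ := by nlinarith
        have h4 : -2 * α = 4 * κ + n - 2 := by rw [hκ]; ring
        linarith
    · exact lower_pos α (((n : ℝ) + 2 * α - 2) / 2) _ (by
        have : 0 < ((n : ℝ) + 2 * α - 2) / 2 := by linarith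
        have : ((n : ℝ) + 2 * α - 2) / 2 ≤ n := by linarith
        nlinarith) (by nlinarith) hu1 hs
  · push Not at h1 h2 h3
    exact lower_pos α (2 * (α - 1)) _ (by nlinarith) (by nlinarith) hu1 hs

/-- the upper bound -/
lemma upper (hn : 3 ≤ n) (α c : ℝ) (hα : α ≠ -((n : ℝ) - 2) / 2)
    (hc : ∀ u : EuclideanSpace ℝ (Fin n) → ℝ, ContDiff ℝ ∞ u → HasCompactSupport u →
      (α < -((n : ℝ) - 2) / 2 → ∫ x, w x ^ (α - 1) * u x = 0) → c * Ms α u ≤ En α u) :
    c ≤ value n α := by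
  have hn' : (3 : ℝ) ≤ n := by exact_mod_cast hn
  have hnpos : 0 < n := by omega
  unfold value
  split_ifs with h1 h2 h3
  · exact U3 α c (by linarith) hnpos (fun u h1 h2 h3 => hc u h1 h2 fun _ => h3)
  · push Not at h1
    rcases lt_or_eq_of_le h2 with h2' | h2'
    · exact U4 α c h2' (fun u h1 h2 h3 => hc u h1 h2 fun _ => h3) hnpos
    · have := U5 α c (by linarith) hn (fun u h1 h2 h3 => hc u h1 h2 fun _ => h3)
      refine this.trans (le_of_eq ?_)
      rw [h2']; ring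
  · push Not at h1 h2
    rcases lt_or_gt_of_ne hα with hα' | hα'
    · exact U5 α c hα' hn (fun u h1 h2 h3 => hc u h1 h2 fun _ => h3)
    · exact U1 α c (fun u h1 h2 => hc u h1 h2 fun h => absurd h (not_lt.2 hα'.le))
  · push Not at h1 h2 h3
    exact U2 α c h3 (fun u h1 h2 => hc u h1 h2 fun h => absurd h (by linarith))

lemma Ms_pos (α : ℝ) {u : EuclideanSpace ℝ (Fin n) → ℝ} (hu : Continuous u) (hs : HasCompactSupport u)
    (hne : u ≠ 0) : 0 < Ms α u := by
  by_contra h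
  apply hne
  ext x
  exact Ms_eq_zero α hu hs (not_lt.1 h) x

/-- an admissible function -/
lemma nonempty_adm (hn : 3 ≤ n) (α : ℝ) : (quotients n α).Nonempty := by
  have hnpos : 0 < n := by omega
  set e : EuclideanSpace ℝ (Fin n) := EuclideanSpace.single ⟨0, hnpos⟩ 1 with he
  set u : EuclideanSpace ℝ (Fin n) → ℝ := fun x => inner ℝ x e * chi 1 x with hu
  have hue : u ((1 / 2 : ℝ) • e) ≠ 0 := by
    rw [hu]
    simp only
    have he1 : ‖e‖ = 1 := by rw [he]; simp
    have h1 : inner ℝ ((1 / 2 : ℝ) • e) e = (1 / 2 : ℝ) := by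
      rw [inner_smul_left, real_inner_self_eq_norm_sq, he1]; simp
    have h2 : chi 1 ((1 / 2 : ℝ) • e) = 1 := by
      apply chi_eq_one
      have : w ((1 / 2 : ℝ) • e) = 5 / 4 := by
        unfold w; rw [norm_smul, he1]; norm_num
      rw [this, one_mul]
      have := Real.log_le_sub_one_of_pos (show (0:ℝ) < 5 / 4 by norm_num)
      linarith
    rw [h1, h2]; norm_num
  refine ⟨_, u, ⟨?_, ?_, ?_, ?_⟩, rfl⟩
  · exact (contDiff_id.inner ℝ contDiff_const).mul (chi_contDiff 1)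
  · exact (chi_hcs one_pos).mul_left
  · intro h
    apply hue
    rw [h]; rfl
  · intro _
    have h1 : ∫ x : EuclideanSpace ℝ (Fin n), (1 + ‖x‖ ^ 2) ^ (α - 1) * u x =
        ∫ x : EuclideanSpace ℝ (Fin n), (1 + ‖-x‖ ^ 2) ^ (α - 1) * u (-x) :=
      (integral_neg_eq_self (fun x : EuclideanSpace ℝ (Fin n) => (1 + ‖x‖ ^ 2) ^ (α - 1) * u x) volume).symm
    have h2 : ∀ x : EuclideanSpace ℝ (Fin n), (1 + ‖-x‖ ^ 2) ^ (α - 1) * u (-x) =
        -((1 + ‖x‖ ^ 2) ^ (α - 1) * u x) := by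
      intro x
      rw [hu]
      simp only
      rw [norm_neg, inner_neg_left, chi_neg]; ring
    simp_rw [h2, integral_neg] at h1
    linarith

/-- For every `n ≥ 3` and every `α ≠ -(n-2)/2` the best constant `C(α,n)` is `-2α` for `α ≤ -n`,
`-4α-2n` for `-n < α ≤ -(n+2)/2`, `(n+2α-2)²/4` for `-(n+2)/2 < α ≤ 1+n/2`, and `2n(α-1)` for
`α > 1+n/2`. -/
theorem result (n : ℕ) (hn : 3 ≤ n) (α : ℝ) (hα : α ≠ -((n : ℝ) - 2) / 2) :
    (quotients n α).Nonempty ∧ IsGLB (quotients n α) (value n α) ∧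
      bestConstant n α = value n α := by
  have hne := nonempty_adm hn α
  have hglb : IsGLB (quotients n α) (value n α) := by
    constructor
    · rintro q ⟨u, ⟨hu, hs, hne, h0⟩, rfl⟩
      rw [energy_eq, mass_eq, le_div_iff₀ (Ms_pos α hu.continuous hs hne)]
      exact lower hn α hα u hu hs h0
    · intro c hc
      apply upper hn α c hα
      intro u hu hs h0
      by_cases hu0 : u = 0
      · have h1 : Ms α u = 0 := by unfold Ms; rw [hu0]; simp
        rw [h1, mul_zero]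
        exact En_nonneg α u
      · have h1 := hc ⟨u, ⟨hu, hs, hu0, h0⟩, rfl⟩
        rw [energy_eq, mass_eq, le_div_iff₀ (Ms_pos α hu.continuous hs hu0)] at h1
        exact h1
  exact ⟨hne, hglb, hglb.csInf_eq hne⟩

end Pool.Agent.Results.MP_5b99fd_an.BestConstant
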